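import Pool.Agent.H29.Central
import Pool.Agent.H29.TreeAxis

/-!
# Rank rigidity for groups acting on trees with a virtually centralising translation

Let `G` act geometrically on an irreducible, locally compact, geodesically complete CAT(0) space
`X`. Suppose `G` also acts by automorphisms on a simplicial tree `T`, and some element `τ` which
translates along an axis of `T` commutes with a finite index subgroup of the pointwise stabiliser
of some nondegenerate segment of this axis. Then `G` contains a rank-one isometry of `X`.
-/

open Set

namespace Pool.Agent.Results.MP_ff40e8_al.TreeTranslation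

open Pool.Agent.H29

lemma treeLike_of_isTree {V : Type*} {T : SimpleGraph V} (hT : T.IsTree) : TreeLike T.dist where
  self := fun _ => SimpleGraph.dist_self
  symm := fun _ _ => SimpleGraph.dist_comm
  eq_of := fun _ _ h => hT.connected.dist_eq_zero_iff.mp h
  tri := fun _ _ _ => hT.connected.dist_triangle
  four := tree_four hT

/-- The space `X` is CAT(0), locally compact, geodesically complete and irreducible; the group `G`
acts on it by isometries, properly discontinuously and cocompactly. The group `G` acts by
automorphisms on the tree `T`; the vertices `x ≠ y` lie on the axis of `τ` (`hτ`, `hx`, `hy`), and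
the centraliser of `τ` in the common stabiliser of `x` and `y` has finite index there (`hcent`).
Then some element of `G` is a rank-one isometry of `X`. -/
theorem result {G : Type*} {X : Type*} {V : Type*} [Group G] [MetricSpace X] [IsCAT0 X]
    [LocallyCompactSpace X] [Nonempty X] [MulAction G X] [IsIsometricSMul G X]
    [ProperlyDiscontinuousSMul G X] (hcoc : Cocompact G X) (hgc : GeodesicallyComplete X)
    (hirr : MetricIrreducible X)
    [MulAction G V] (T : SimpleGraph V) (hT : T.IsTree)
    (hadj : ∀ (g : G) (v w : V), T.Adj v w → T.Adj (g • v) (g • w))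
    (τ : G) (x y : V) (hxy : x ≠ y) (hτ : τ • x ≠ x)
    (hx : T.dist x (τ • τ • x) = 2 * T.dist x (τ • x))
    (hy : T.dist y (τ • τ • y) = 2 * T.dist y (τ • y))
    (hcent : (Subgroup.centralizer {τ}).relIndex
      (MulAction.stabilizer G x ⊓ MulAction.stabilizer G y) ≠ 0) :
    ∃ g : G, IsRankOne (X := X) g := by
  have : ProperSpace X := hcoc.properSpace
  have hd := treeLike_of_isTree hT
  have hiso : ∀ (g : G) v w, T.dist (g • v) (g • w) = T.dist v w := dist_smul_tree hT hadj
  have hfin : ∀ (σ : G) (z w : V), GoodAx T.dist σ z w →
      {g : G | g • z = z ∧ g • w = w}.Finite → IsRankOne (X := X) σ := by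
    intro σ z w h hf
    exact TAxis.rankOne (T := T) hcoc hT hadj ⟨h.ax.ne, h.ax.ne', h.ax.a1, h.ax.a2⟩ hf
  obtain ⟨m, hm | hm⟩ := axis_pair hd hiso hx hτ hy hxy
  · apply rankOne_of_goodAx hgc hcoc hirr hd hiso hfin (τ := τ ^ m) (x := x) (y := y)
    refine ⟨hm, relIndex_mono_left ?_ hcent⟩
    intro k hk
    rw [Subgroup.mem_centralizer_singleton_iff] at hk ⊢
    have hc : Commute k τ := hk
    exact hc.pow_right m
  · apply rankOne_of_goodAx hgc hcoc hirr hd hiso hfin (τ := τ ^ m) (x := y) (y := x)
    refine ⟨hm, ?_⟩
    rw [inf_comm]
    apply relIndex_mono_left _ hcent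
    intro k hk
    rw [Subgroup.mem_centralizer_singleton_iff] at hk ⊢
    have hc : Commute k τ := hk
    exact hc.pow_right m

end Pool.Agent.Results.MP_ff40e8_al.TreeTranslation
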